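import Mathlib
import Pool.Agent.TH231.PP.Fin

/-!
# Poles of the local topological zeta function and roots of `b_{f,0}` for products of powers of
generic polynomials

Let `F ⊆ ℂ` be a field (for example `ℚ`) and `f = ∏_k g_k ^ (m_k)` with arbitrary multiplicities
`m_k ≥ 1`, where `g_k = ∑_{g j = k} a_j x ^ (v j) + h_k` and `h_k ∈ F[x_1, …, x_N]` is ANY polynomial
with exponents in the Newton polyhedron `conv {v j : g j = k} + ℝ_{≥ 0} ^ N`. So `f` is neither
reduced nor Newton nondegenerate in general, its singularities need not be isolated, and only the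
coefficients `a_j` at some exponents `v j`, which include the vertices of the Newton polyhedra of the
`g_k`, have to be generic: there is a nonzero polynomial `G ∈ F[y_1, …, y_r]` such that `G(a) ≠ 0` is
enough. (The coefficients `a_j` may be rational numbers.)

Let `Z` be the local topological zeta function of `f` at the origin. Then:

* every pole of `Z` which is not of the form `- i / m_k`, `i ≥ 0`, is a root of the local
  Bernstein-Sato polynomial `b_{f,0}`, of at least the same order;
* every pole `s ≥ -1` of `Z` is a root of `b_{f,0}`, if for every `k` the monomials `x ^ (v j)`,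
  `g j = k`, do not generate a principal ideal, or `g_k` has an irreducible factor which vanishes at
  the origin and does not divide the other `g_l`.

This was known in the starting repository for coefficients `a_j` which are algebraically independent
over `F` (`MP_aa7fc1_ag.ProductsOfPowersLocal`, without the second assertion).
-/

set_option autoImplicit false

namespace Pool.Agent.Results.MP_6163c8_ag.ProductsOfPowersLocal

open MvPolynomial Pool.Agent.W423.MG Pool.Agent.W423.NX Pool.Agent.W425.SM Pool.Agent.TH231.PP

/-- **Poles of the local topological zeta function are roots of `b_{f,0}` for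
`f = ∏_k g_k ^ (m_k)`, `g_k = ∑_{g j = k} a_j x ^ (v j) + h_k`, with generic coefficients `a_j`.**

`HullG True g v k w` says that `w` is in the convex hull of the `v j`, `g j = k`, plus the positive
orthant, and `polyH g v a h k` is the polynomial `g_k`.

`NonDT g v h a`: the polynomial `∑_k y_k g_k` (in the variables `y_k`, `x_i`) is nondegenerate with
respect to its Newton polyhedra, that is, the tuple `(g_k)` is nondegenerate.

`IsLocalBFunction f b` says that `b(s) f ^ s = P(s) f ^ (s + 1)` for a differential operator `P(s)`
with (formal, in particular convergent) power series at the origin as coefficients; for example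
`b = b_{f,0}`.

`R` is any smooth fan with support the positive orthant on which, for each `k`, the ideal
generated by the monomials `x ^ (v j)`, `g j = k`, becomes principal, and
`topZetaP True g v θ m R` is the local topological zeta function of `f` at the origin, computed on
the embedded resolution `X_R` (the sum over the cones of `R` whose orbit lies over the origin). The
heights `θ` are only used to compute the mixed volumes in the Euler characteristics of the strata.

Conclusions: (1) `b(s) D(s) Z(s)` is a polynomial, where `D` is a product of factors `m_k s + i`.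
(2) If `m_k s + i ≠ 0` for all `k` and all `i ≥ 0`, then the order of the pole `s` of `Z` is at most
the order of the root `s` of `b`. (3) If for every `k` no exponent `v j`, `g j = k`, is less than or
equal to all the others, or `g_k` has an irreducible factor which vanishes at the origin and does
not divide the other `g_l`, then every pole of `Z` with real part at least `-1` is a root of
`b`. -/
theorem result {r N P : ℕ} {F : Type} [Field F] [Algebra F ℂ]
    (g : Fin r → Fin (P+1)) (v : Fin r → Fin N → ℕ)
    (h : Fin (P+1) → MvPolynomial (Fin N) F) (m : Fin (P+1) → ℕ) (hm : ∀ k, 1 ≤ m k)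
    (hg : ∀ k, ∃ j, g j = k) (hh : ∀ k, ∀ w ∈ (h k).support, HullG True g v k w) :
    ∃ G : MvPolynomial (Fin r) F, G ≠ 0 ∧ ∀ a : Fin r → ℂ, aeval a G ≠ 0 →
      NonDT g v h a ∧
      (constantCoeff (∏ k, polyH g v a h k ^ m k) = 0 →
      ∀ b : Polynomial ℂ,
      Pool.Agent.H628R4.TP.IsLocalBFunction (∏ k, polyH g v a h k ^ m k) b →
      ∀ θ : Fin r → ℝ, LinearIndependent ℚ θ → ∀ R : SmoothFan N, PrincipalG g v R →
        (∃ (n : ℕ) (Q : Polynomial ℂ), algebraMap (Polynomial ℂ) (RatFunc ℂ) (b *
          (∏ k : Fin (P+1), ∏ i ∈ Finset.range n,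
            (Polynomial.C ((m k : ℕ) : ℂ) * Polynomial.X + Polynomial.C (i : ℂ))) ^ 3) *
          topZetaP True g v θ m R = algebraMap (Polynomial ℂ) (RatFunc ℂ) Q) ∧
        (∀ s : ℂ, (∀ (k : Fin (P+1)) (i : ℕ), (m k : ℂ) * s + (i : ℂ) ≠ 0) →
          (Polynomial.X - Polynomial.C s) ^
            (topZetaP True g v θ m R).denom.rootMultiplicity s ∣ b) ∧
        ((∀ k, (∀ j, g j = k → ∃ j' i, g j' = k ∧ v j' i < v j i) ∨
            ∃ π, Irreducible π ∧ π ∣ polyH g v a h k ∧ (∀ l, l ≠ k → ¬ π ∣ polyH g v a h l) ∧
              constantCoeff π = 0) →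
          ∀ s : ℂ, -1 ≤ s.re → (topZetaP True g v θ m R).denom.eval s = 0 → b.eval s = 0)) := by
  obtain ⟨G, hG0, hG⟩ := finL g v h m hm hg hh
  refine ⟨G, hG0, fun a ha => ⟨(hG a ha).1, fun hc b hb θ hθ R hR => ?_⟩⟩
  obtain ⟨h1, h2, h3⟩ := (hG a ha).2 hc b hb θ hθ R hR
  refine ⟨h1, h2, fun hown => h3 fun k => ?_⟩
  rcases hown k with h4 | ⟨π, h4, h5, h6, h7⟩
  · refine Or.inl ⟨?_, fun _ => h4⟩
    obtain ⟨j, hj⟩ := hg k
    obtain ⟨j', i, hj', hi⟩ := h4 j hj
    exact ⟨j, j', hj, hj', fun h8 => by rw [h8] at hi; exact lt_irrefl _ hi⟩
  · exact Or.inr ⟨π, h4, h5, h6, fun _ => h7⟩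

end Pool.Agent.Results.MP_6163c8_ag.ProductsOfPowersLocal
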